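import Pool.Agent.REV.StmtsV3

set_option autoImplicit false

/-!
# Squad REV (MP_bbfd73_gt), row VS3: the swap for `n = 3` (after `Helper60_REV/VSW.lean`)
-/

namespace Pool.Agent.REV.H47

open Pool.Agent.REV Set MeasureTheory Filter
open scoped Topology

theorem vs3_img {b β : ℝ} (hb : 0 < b) (hβ : 0 < β) :
    (fun u : ℝ => 1 / (u * β)) '' Ioo (0 : ℝ) (min 1 (b / β)) = Ioi (max (1 / b) (1 / β)) := by
  ext s
  constructor
  · rintro ⟨u, ⟨hu0, hu1⟩, rfl⟩
    have h1 : u < 1 := hu1.trans_le (min_le_left _ _)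
    have h2 : u < b / β := hu1.trans_le (min_le_right _ _)
    have h3 : u * β < b := (lt_div_iff₀ hβ).1 h2
    have h4 : 0 < u * β := mul_pos hu0 hβ
    show max (1 / b) (1 / β) < 1 / (u * β)
    refine max_lt ?_ ?_
    · exact one_div_lt_one_div_of_lt h4 h3
    · refine one_div_lt_one_div_of_lt h4 ?_
      nlinarith
  · intro hs
    have h1 : 1 / b < s := (le_max_left _ _).trans_lt hs
    have h2 : 1 / β < s := (le_max_right _ _).trans_lt hs
    have hs0 : 0 < s := (one_div_pos.2 hb).trans h1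
    refine ⟨1 / (s * β), ⟨by positivity, lt_min ?_ ?_⟩, ?_⟩
    · rw [div_lt_one (by positivity)]
      rw [div_lt_iff₀ hβ] at h2
      exact h2
    · rw [div_lt_div_iff₀ (by positivity) hβ]
      rw [div_lt_iff₀ hb] at h1
      nlinarith
    · show 1 / (1 / (s * β) * β) = s
      field_simp

theorem vs3_deriv {β : ℝ} (hβ : 0 < β) {u : ℝ} (hu0 : 0 < u) (S : Set ℝ) :
    HasDerivWithinAt (fun u : ℝ => 1 / (u * β)) (-(β / (u * β) ^ 2)) S u := by
  have h1 : HasDerivAt (fun u : ℝ => u * β) β u := by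
    simpa using (hasDerivAt_id u).mul_const β
  have h2 := h1.inv (mul_pos hu0 hβ).ne'
  have h3 : (fun u : ℝ => 1 / (u * β)) = fun u : ℝ => (u * β)⁻¹ := by
    funext u
    rw [one_div]
  rw [h3]
  have h4 : -(β / (u * β) ^ 2) = -β / (u * β) ^ 2 := by ring
  rw [h4]
  exact h2.hasDerivWithinAt

theorem vs3_inj {b β : ℝ} (hβ : 0 < β) :
    InjOn (fun u : ℝ => 1 / (u * β)) (Ioo (0 : ℝ) (min 1 (b / β))) := by
  intro u hu v hv h
  have hu0 : 0 < u := hu.1
  have hv0 : 0 < v := hv.1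
  have h1 : 1 / (u * β) = 1 / (v * β) := h
  rw [div_eq_div_iff (by positivity) (by positivity), one_mul, one_mul] at h1
  exact (mul_right_cancel₀ hβ.ne' h1).symm

theorem vs3_eq {β μ u : ℝ} (hβ : 0 < β) (hu0 : 0 < u) (W : ℝ → ℝ) :
    |-(β / (u * β) ^ 2)| • (((1 / (u * β)) ^ 2)⁻¹ * W (1 / (u * β)) *
      wb (1 / (u * β)) β ^ μ) = β * (W (1 / (u * β)) * (1 - u ^ 2) ^ μ) := by
  have h1 : wb (1 / (u * β)) β = 1 - u ^ 2 := by
    unfold wb
    congr 1
    field_simp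
  rw [h1, abs_neg, abs_of_pos (by positivity), smul_eq_mul]
  have h2 : ((1 / (u * β)) ^ 2)⁻¹ = (u * β) ^ 2 := by
    rw [one_div, inv_pow, inv_inv]
  rw [h2]
  field_simp

theorem vs3_subst {b β μ : ℝ} (hb : 0 < b) (hβ : 0 < β) (W : ℝ → ℝ) :
    ∫ s in Ioi (max (1 / b) (1 / β)), (s ^ 2)⁻¹ * W s * wb s β ^ μ =
      β * ∫ u in Ioo (0 : ℝ) (min 1 (b / β)), W (1 / (u * β)) * (1 - u ^ 2) ^ μ := by
  rw [← vs3_img hb hβ, integral_image_eq_integral_abs_deriv_smul measurableSet_Ioo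
    (f' := fun u => -(β / (u * β) ^ 2)) (fun u hu => vs3_deriv hβ hu.1 _) (vs3_inj hβ),
    ← integral_const_mul]
  exact setIntegral_congr_fun measurableSet_Ioo fun u hu => vs3_eq hβ hu.1 W

theorem vs3_int {b β μ : ℝ} (hb : 0 < b) (hβ : 0 < β) (W : ℝ → ℝ)
    (h : IntegrableOn (fun u => W (1 / (u * β)) * (1 - u ^ 2) ^ μ)
      (Ioo (0 : ℝ) (min 1 (b / β)))) :
    IntegrableOn (fun s => (s ^ 2)⁻¹ * W s * wb s β ^ μ) (Ioi (max (1 / b) (1 / β))) := by
  rw [← vs3_img hb hβ, integrableOn_image_iff_integrableOn_abs_deriv_smul measurableSet_Ioo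
    (f' := fun u => -(β / (u * β) ^ 2)) (fun u hu => vs3_deriv hβ hu.1 _) (vs3_inj hβ)]
  have h2 : IntegrableOn (fun u => β * (W (1 / (u * β)) * (1 - u ^ 2) ^ μ))
      (Ioo (0 : ℝ) (min 1 (b / β))) := Integrable.const_mul h β
  refine h2.congr_fun (fun u hu => ?_) measurableSet_Ioo
  exact (vs3_eq hβ hu.1 W).symm

theorem vs3_wb {s β : ℝ} (hs : 0 < s) (h : 1 / s < β) : 0 ≤ wb s β ∧ wb s β ≤ 1 := by
  have h1 : 1 < s * β := by
    rw [div_lt_iff₀ hs] at h
    linarith [mul_comm β s]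
  have h2 : 1 < (s * β) ^ 2 := by nlinarith
  unfold wb
  constructor
  · have h3 : ((s * β) ^ 2)⁻¹ ≤ 1 := inv_le_one_of_one_le₀ h2.le
    linarith
  · have h3 : 0 ≤ ((s * β) ^ 2)⁻¹ := by positivity
    linarith

theorem vs3_ii : IntervalIntegrable (fun u : ℝ => (1 - u ^ 2) ^ (-(1 / 2) : ℝ)) volume 0 1 := by
  have h1 : IntervalIntegrable (fun x : ℝ => (1 - x) ^ (-(1 / 2) : ℝ)) volume 0 1 := by
    have h := (intervalIntegral.intervalIntegrable_rpow' (a := 1) (b := 0)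
      (r := (-(1 / 2) : ℝ)) (by norm_num)).comp_sub_left 1
    simpa using h
  rw [intervalIntegrable_iff_integrableOn_Ioo_of_le zero_le_one] at h1 ⊢
  refine Integrable.mono' h1 ?_ ?_
  · exact (by fun_prop : Measurable fun u : ℝ => (1 - u ^ 2) ^ (-(1 / 2) : ℝ)).aestronglyMeasurable
  · refine (ae_restrict_iff' measurableSet_Ioo).2 (Filter.Eventually.of_forall fun u hu => ?_)
    have hu0 : 0 < u := hu.1
    have hu1 : u < 1 := hu.2
    have h3 : 0 < 1 - u ^ 2 := by nlinarith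
    rw [Real.norm_of_nonneg (Real.rpow_nonneg h3.le _)]
    exact Real.rpow_le_rpow_of_nonpos (by linarith) (by nlinarith) (by norm_num)

theorem vs3_J0 : J0 3 = (∫ u in (0 : ℝ)..1, (1 - u ^ 2) ^ (-(1 / 2) : ℝ)) := by
  unfold J0
  have : (((3 : ℕ) : ℝ) - 4) / 2 = -(1 / 2) := by norm_num
  rw [this]

theorem vs3_pos : 0 < J0 3 := by
  rw [vs3_J0]
  refine intervalIntegral.intervalIntegral_pos_of_pos_on vs3_ii (fun u hu => ?_) one_pos
  have h3 : 0 < 1 - u ^ 2 := by nlinarith [hu.1, hu.2]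
  exact Real.rpow_pos_of_pos h3 _

theorem vs3 : Vs3Stmt := by
  classical
  refine ⟨vs3_pos, vs3_ii, vs3_J0, ?_⟩
  intro b M D W hb hDm hWm hD0 hDi hW
  obtain ⟨μ, hμ⟩ : ∃ μ : ℝ, μ = (-(1 / 2) : ℝ) := ⟨_, rfl⟩
  rw [← hμ]
  have hii : IntegrableOn (fun u : ℝ => (1 - u ^ 2) ^ μ) (Ioo 0 1) := by
    rw [hμ]
    exact (intervalIntegrable_iff_integrableOn_Ioo_of_le zero_le_one).1 vs3_ii
  have hM : 0 ≤ M := (hW 1 one_pos).1.trans (hW 1 one_pos).2
  have hb' : 0 < 1 / b := one_div_pos.2 hb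
  let F : ℝ → ℝ → ℝ := fun s β =>
    if 1 / s < β then (s ^ 2)⁻¹ * W s * (wb s β ^ μ * (β⁻¹ * D β)) else 0
  have hFm : Measurable (Function.uncurry F) := by
    have h : Measurable fun p : ℝ × ℝ =>
        if 1 / p.1 < p.2 then (p.1 ^ 2)⁻¹ * W p.1 * (wb p.1 p.2 ^ μ * (p.2⁻¹ * D p.2)) else 0 := by
      refine Measurable.ite (measurableSet_lt (by fun_prop) measurable_snd) ?_ measurable_const
      unfold wb
      fun_prop
    exact h
  have hF0 : ∀ s β, 0 < s → 0 < β → 0 ≤ F s β := by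
    intro s β hs hβ
    show 0 ≤ if 1 / s < β then (s ^ 2)⁻¹ * W s * (wb s β ^ μ * (β⁻¹ * D β)) else 0
    split_ifs with h
    · have h1 := (vs3_wb hs h).1
      have h2 := hD0 β hβ
      have h3 := (hW s hs).1
      have h4 : 0 ≤ wb s β ^ μ := Real.rpow_nonneg h1 _
      positivity
    · exact le_rfl
  -- the inner integrand
  have hsub : ∀ β : ℝ, Ioo (0 : ℝ) (min 1 (b / β)) ⊆ Ioo 0 1 := fun β =>
    Ioo_subset_Ioo_right (min_le_left _ _)
  have hbd : ∀ β u : ℝ, 0 < β → u ∈ Ioo (0 : ℝ) 1 →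
      0 ≤ W (1 / (u * β)) * (1 - u ^ 2) ^ μ ∧
      W (1 / (u * β)) * (1 - u ^ 2) ^ μ ≤ M * (1 - u ^ 2) ^ μ := by
    intro β u hβ hu
    have hu0 : 0 < u := hu.1
    have h2 := hW (1 / (u * β)) (by positivity)
    have h3 : 0 ≤ 1 - u ^ 2 := by nlinarith [hu.1, hu.2]
    have h5 : 0 ≤ (1 - u ^ 2) ^ μ := Real.rpow_nonneg h3 _
    exact ⟨mul_nonneg h2.1 h5, mul_le_mul_of_nonneg_right h2.2 h5⟩
  have hWi : ∀ β : ℝ, 0 < β → IntegrableOn (fun u => W (1 / (u * β)) * (1 - u ^ 2) ^ μ)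
      (Ioo (0 : ℝ) 1) := by
    intro β hβ
    refine Integrable.mono' (hii.const_mul M) ?_ ?_
    · have : Measurable fun u : ℝ => W (1 / (u * β)) * (1 - u ^ 2) ^ μ := by fun_prop
      exact this.aestronglyMeasurable
    · refine (ae_restrict_iff' measurableSet_Ioo).2 (Filter.Eventually.of_forall fun u hu => ?_)
      rw [Real.norm_of_nonneg (hbd β u hβ hu).1]
      exact (hbd β u hβ hu).2
  have hind : ∀ β s, 0 < s → 0 < β → F s β =
      (Ioi (1 / β)).indicator (fun s => ((s ^ 2)⁻¹ * W s * wb s β ^ μ) * (β⁻¹ * D β)) s := by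
    intro β s hs0 hβ
    show (if 1 / s < β then (s ^ 2)⁻¹ * W s * (wb s β ^ μ * (β⁻¹ * D β)) else 0) = _
    by_cases h : 1 / s < β
    · have h' : s ∈ Ioi (1 / β) := by
        rw [mem_Ioi, div_lt_iff₀ hβ]
        rw [div_lt_iff₀ hs0] at h
        linarith [mul_comm β s]
      rw [if_pos h, indicator_of_mem h']
      ring
    · have h' : s ∉ Ioi (1 / β) := by
        intro h'
        apply h
        rw [mem_Ioi, div_lt_iff₀ hβ] at h'
        rw [div_lt_iff₀ hs0]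
        linarith [mul_comm β s]
      rw [if_neg h, indicator_of_notMem h']
  have hfibi : ∀ β, 0 < β → Integrable (fun s => F s β) (volume.restrict (Ioi (1 / b))) := by
    intro β hβ
    have h1 := (vs3_int hb hβ W ((hWi β hβ).mono_set (hsub β))).mul_const (β⁻¹ * D β)
    have h2 : IntegrableOn (fun s => (Ioi (1 / β)).indicator
        (fun s => ((s ^ 2)⁻¹ * W s * wb s β ^ μ) * (β⁻¹ * D β)) s) (Ioi (1 / b)) := by
      have h3 : IntegrableOn (fun s => ((s ^ 2)⁻¹ * W s * wb s β ^ μ) * (β⁻¹ * D β))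
          (Ioi (1 / β) ∩ Ioi (1 / b)) := by
        rw [Ioi_inter_Ioi, max_comm]
        exact h1
      exact (integrable_indicator_iff measurableSet_Ioi).2 (by
        rw [IntegrableOn, Measure.restrict_restrict measurableSet_Ioi]
        exact h3)
    refine h2.congr_fun (fun s hs => ?_) measurableSet_Ioi
    exact (hind β s (hb'.trans hs) hβ).symm
  have hfib : ∀ β, 0 < β → ∫ s in Ioi (1 / b), F s β =
      D β * ∫ u in Ioo (0 : ℝ) (min 1 (b / β)), W (1 / (u * β)) * (1 - u ^ 2) ^ μ := by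
    intro β hβ
    have h1 : ∫ s in Ioi (1 / b), F s β = ∫ s in Ioi (1 / b),
        (Ioi (1 / β)).indicator (fun s => ((s ^ 2)⁻¹ * W s * wb s β ^ μ) * (β⁻¹ * D β)) s := by
      refine setIntegral_congr_fun measurableSet_Ioi fun s hs => ?_
      exact hind β s (hb'.trans hs) hβ
    rw [h1, setIntegral_indicator measurableSet_Ioi, Ioi_inter_Ioi, integral_mul_const,
      vs3_subst hb hβ]
    field_simp
  have hI : ∀ β, 0 < β →
      (∫ u in Ioo (0 : ℝ) (min 1 (b / β)), W (1 / (u * β)) * (1 - u ^ 2) ^ μ) ≤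
        M * ∫ u in Ioo (0 : ℝ) 1, (1 - u ^ 2) ^ μ := by
    intro β hβ
    rw [← integral_const_mul]
    have h1 : (∫ u in Ioo (0 : ℝ) (min 1 (b / β)), W (1 / (u * β)) * (1 - u ^ 2) ^ μ) ≤
        ∫ u in Ioo (0 : ℝ) 1, W (1 / (u * β)) * (1 - u ^ 2) ^ μ := by
      refine setIntegral_mono_set (hWi β hβ) ?_ (hsub β).eventuallyLE
      refine (ae_restrict_iff' measurableSet_Ioo).2 (Filter.Eventually.of_forall fun u hu => ?_)
      exact (hbd β u hβ hu).1
    refine h1.trans ?_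
    exact setIntegral_mono_on (hWi β hβ) (hii.const_mul M) measurableSet_Ioo
      fun u hu => (hbd β u hβ hu).2
  have hFi : Integrable (Function.uncurry F)
      ((volume.restrict (Ioi (1 / b))).prod (volume.restrict (Ioi 0))) := by
    rw [integrable_prod_iff' hFm.aestronglyMeasurable]
    constructor
    · refine (ae_restrict_iff' measurableSet_Ioi).2 (Filter.Eventually.of_forall fun β hβ => ?_)
      exact hfibi β hβ
    · refine Integrable.mono' (hDi.const_mul (M * ∫ u in Ioo (0 : ℝ) 1, (1 - u ^ 2) ^ μ))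
        (hFm.norm.stronglyMeasurable.integral_prod_left').aestronglyMeasurable ?_
      refine (ae_restrict_iff' measurableSet_Ioi).2 (Filter.Eventually.of_forall fun β hβ => ?_)
      have hβ0 : 0 < β := hβ
      have h1 : ∫ s in Ioi (1 / b), ‖Function.uncurry F (s, β)‖ = ∫ s in Ioi (1 / b), F s β := by
        refine setIntegral_congr_fun measurableSet_Ioi fun s hs => ?_
        exact Real.norm_of_nonneg (hF0 s β (hb'.trans hs) hβ0)
      rw [Real.norm_of_nonneg (integral_nonneg fun s => norm_nonneg _), h1, hfib β hβ0,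
        mul_comm _ (D β)]
      exact mul_le_mul_of_nonneg_left (hI β hβ0) (hD0 β hβ0)
  have hrow : ∀ s, s ∈ Ioi (1 / b) → ∫ β in Ioi (0 : ℝ), F s β =
      (s ^ 2)⁻¹ * W s * ∫ β in Ioi (1 / s), wb s β ^ μ * (β⁻¹ * D β) := by
    intro s hs
    have hs0 : 0 < s := hb'.trans hs
    have h1 : ∫ β in Ioi (0 : ℝ), F s β = ∫ β in Ioi (0 : ℝ),
        (Ioi (1 / s)).indicator (fun β => (s ^ 2)⁻¹ * W s * (wb s β ^ μ * (β⁻¹ * D β))) β := by
      refine setIntegral_congr_fun measurableSet_Ioi fun β hβ => ?_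
      show (if 1 / s < β then (s ^ 2)⁻¹ * W s * (wb s β ^ μ * (β⁻¹ * D β)) else 0) = _
      by_cases h : 1 / s < β
      · rw [if_pos h, indicator_of_mem (show β ∈ Ioi (1 / s) from h)]
      · rw [if_neg h, indicator_of_notMem (show β ∉ Ioi (1 / s) from h)]
    rw [h1, setIntegral_indicator measurableSet_Ioi, Ioi_inter_Ioi,
      sup_eq_right.2 (one_div_pos.2 hs0).le, integral_const_mul]
  constructor
  · have h1 := hFi.integral_prod_left
    refine h1.congr ?_
    refine (ae_restrict_iff' measurableSet_Ioi).2 (Filter.Eventually.of_forall fun s hs => ?_)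
    exact hrow s hs
  · have h1 : ∫ s in Ioi (1 / b), (s ^ 2)⁻¹ * W s *
        ∫ β in Ioi (1 / s), wb s β ^ μ * (β⁻¹ * D β) =
        ∫ s in Ioi (1 / b), ∫ β in Ioi (0 : ℝ), F s β :=
      (setIntegral_congr_fun measurableSet_Ioi fun s hs => hrow s hs).symm
    rw [h1, integral_integral_swap hFi]
    exact setIntegral_congr_fun measurableSet_Ioi fun β hβ => hfib β hβ

end Pool.Agent.REV.H47
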