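import Pool.Agent.REV.StmtsP3

set_option autoImplicit false

/-!
# Squad REV (MP_bbfd73_gt), row PWM: the function `W` is nonincreasing
-/

namespace Pool.Agent.REV.H47

open Pool.Agent.REV Set MeasureTheory Filter
open scoped Topology

theorem pwm_img {d : ℝ} (hd : 0 < d) :
    (fun ρ : ℝ => Real.sqrt (ρ ^ 2 + d)) '' Ioi (0 : ℝ) = Ioi (Real.sqrt d) := by
  ext s
  constructor
  · rintro ⟨ρ, hρ, rfl⟩
    have hρ0 : 0 < ρ := hρ
    show Real.sqrt d < Real.sqrt (ρ ^ 2 + d)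
    exact Real.sqrt_lt_sqrt hd.le (by nlinarith)
  · intro hs
    have hs1 : Real.sqrt d < s := hs
    have hs0 : 0 < s := (Real.sqrt_nonneg d).trans_lt hs1
    have h2 : d < s ^ 2 := by
      have := Real.sq_sqrt hd.le
      nlinarith [Real.sqrt_nonneg d]
    refine ⟨Real.sqrt (s ^ 2 - d), Real.sqrt_pos.mpr (by linarith), ?_⟩
    show Real.sqrt (Real.sqrt (s ^ 2 - d) ^ 2 + d) = s
    rw [Real.sq_sqrt (by linarith), sub_add_cancel, Real.sqrt_sq hs0.le]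

theorem pwm_deriv {d : ℝ} (hd : 0 < d) (ρ : ℝ) (S : Set ℝ) :
    HasDerivWithinAt (fun ρ : ℝ => Real.sqrt (ρ ^ 2 + d)) (ρ / Real.sqrt (ρ ^ 2 + d)) S ρ := by
  have h0 : 0 < ρ ^ 2 + d := by positivity
  have h1 : HasDerivAt (fun ρ : ℝ => ρ ^ 2 + d) (2 * ρ) ρ := by
    simpa using (hasDerivAt_pow 2 ρ).add_const d
  have h2 := h1.sqrt h0.ne'
  have h3 : 2 * ρ / (2 * Real.sqrt (ρ ^ 2 + d)) = ρ / Real.sqrt (ρ ^ 2 + d) := by
    rw [mul_div_mul_left _ _ (by norm_num : (2 : ℝ) ≠ 0)]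
  rw [h3] at h2
  exact h2.hasDerivWithinAt

theorem pwm_inj {d : ℝ} (hd : 0 < d) :
    InjOn (fun ρ : ℝ => Real.sqrt (ρ ^ 2 + d)) (Ioi (0 : ℝ)) := by
  intro u hu v hv h
  have hu0 : 0 < u := hu
  have hv0 : 0 < v := hv
  have h1 : Real.sqrt (u ^ 2 + d) = Real.sqrt (v ^ 2 + d) := h
  have h2 : u ^ 2 + d = v ^ 2 + d := by
    rw [← Real.sq_sqrt (show 0 ≤ u ^ 2 + d by positivity),
      ← Real.sq_sqrt (show 0 ≤ v ^ 2 + d by positivity), h1]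
  have h3 : u ^ 2 = v ^ 2 := by linarith
  exact (pow_left_inj₀ hu0.le hv0.le two_ne_zero).1 h3

theorem pwm (PIN : PinStmt) : PwmStmt := by
  intro M U hU k hk k' hk' hkk
  have hk0 : 0 ≤ k := hk
  rcases hkk.eq_or_lt with rfl | hlt
  · exact le_rfl
  have hk0' : 0 ≤ k' := hk0.trans hkk
  obtain ⟨d, hd⟩ : ∃ d, d = k' ^ 2 - k ^ 2 := ⟨_, rfl⟩
  have hd0 : 0 < d := by
    rw [hd]
    nlinarith
  have i1 := (PIN M U hU k hk0).2.1
  have i2 := (PIN M U hU k' hk0').2.1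
  unfold wW
  -- restriction to the smaller set
  have hsub : Ioi (Real.sqrt d) ⊆ Ioi (0 : ℝ) := Ioi_subset_Ioi (Real.sqrt_nonneg d)
  have h1 : ∫ τ in Ioi (Real.sqrt d), τ ^ 2 * U (Real.sqrt (k ^ 2 + τ ^ 2)) ≤
      ∫ τ in Ioi (0 : ℝ), τ ^ 2 * U (Real.sqrt (k ^ 2 + τ ^ 2)) := by
    refine setIntegral_mono_set i1 ?_ hsub.eventuallyLE
    refine (ae_restrict_iff' measurableSet_Ioi).2 (Filter.Eventually.of_forall fun τ _ => ?_)
    exact mul_nonneg (sq_nonneg _) (hU.pos _ (Real.sqrt_nonneg _)).le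
  refine le_trans ?_ h1
  have i3 := i1.mono_set hsub
  rw [← pwm_img hd0] at i3 ⊢
  rw [integral_image_eq_integral_abs_deriv_smul measurableSet_Ioi
    (fun ρ _ => pwm_deriv hd0 ρ _) (pwm_inj hd0)]
  rw [integrableOn_image_iff_integrableOn_abs_deriv_smul measurableSet_Ioi
    (fun ρ _ => pwm_deriv hd0 ρ _) (pwm_inj hd0)] at i3
  refine setIntegral_mono_on i2 i3 measurableSet_Ioi fun ρ hρ => ?_
  have hρ0 : 0 < ρ := hρ
  have hs0 : 0 < ρ ^ 2 + d := by positivity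
  have hs : 0 < Real.sqrt (ρ ^ 2 + d) := Real.sqrt_pos.mpr hs0
  have e1 : k ^ 2 + Real.sqrt (ρ ^ 2 + d) ^ 2 = k' ^ 2 + ρ ^ 2 := by
    rw [Real.sq_sqrt hs0.le, hd]
    ring
  rw [e1, smul_eq_mul, abs_of_pos (div_pos hρ0 hs), ← mul_assoc]
  refine mul_le_mul_of_nonneg_right ?_ (hU.pos _ (Real.sqrt_nonneg _)).le
  have e2 : ρ / Real.sqrt (ρ ^ 2 + d) * Real.sqrt (ρ ^ 2 + d) ^ 2 =
      ρ * Real.sqrt (ρ ^ 2 + d) := by
    field_simp
  rw [e2, sq]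
  refine mul_le_mul_of_nonneg_left ?_ hρ0.le
  exact Real.le_sqrt_of_sq_le (by linarith)

end Pool.Agent.REV.H47
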