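import Pool.Agent.REV.StmtsU

/-!
# Squad REV, row YMO: monotonicity of (1 + (g-1) c^2) RA^2
-/

set_option autoImplicit false

namespace Pool.Agent.REV.H47

open Pool.Agent.REV Set Filter
open scoped Topology

/-- the extension of `f` from `[0,1]` -/
noncomputable def ext01 (f : ℝ → ℝ) (t : ℝ) : ℝ := f (max 0 (min t 1))

theorem ext01_eq (f : ℝ → ℝ) {t : ℝ} (h0 : 0 ≤ t) (h1 : t ≤ 1) : ext01 f t = f t := by
  unfold ext01
  rw [min_eq_left h1, max_eq_right h0]

theorem ext01_mem (t : ℝ) : max 0 (min t 1) ∈ Icc (0 : ℝ) 1 :=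
  ⟨le_max_left _ _, max_le zero_le_one (min_le_right _ _)⟩

theorem continuous_ext01 {f : ℝ → ℝ} (hf : ContinuousOn f (Icc 0 1)) : Continuous (ext01 f) := by
  unfold ext01
  exact hf.comp_continuous (continuous_const.max (continuous_id.min continuous_const)) ext01_mem

theorem RA_ext01 (n : ℕ) (f : ℝ → ℝ) {c : ℝ} (h0 : 0 ≤ c) (h1 : c ≤ 1) :
    RA n (ext01 f) c = RA n f c := by
  unfold RA
  apply intervalIntegral.integral_congr
  intro r hr
  rw [uIcc_of_le zero_le_one] at hr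
  show (1 - r ^ 2) ^ (((n : ℝ) - 2) / 2) * ext01 f (r * c) =
    (1 - r ^ 2) ^ (((n : ℝ) - 2) / 2) * f (r * c)
  rw [ext01_eq f (mul_nonneg hr.1 h0) (mul_le_one₀ hr.2 h0 h1)]

theorem RB_ext01 (n : ℕ) (f : ℝ → ℝ) {c : ℝ} (h0 : 0 ≤ c) (h1 : c ≤ 1) :
    RB n (ext01 f) c = RB n f c := by
  unfold RB
  apply intervalIntegral.integral_congr
  intro r hr
  rw [uIcc_of_le zero_le_one] at hr
  show r ^ 2 * (1 - r ^ 2) ^ (((n : ℝ) - 4) / 2) * ext01 f (r * c) =
    r ^ 2 * (1 - r ^ 2) ^ (((n : ℝ) - 4) / 2) * f (r * c)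
  rw [ext01_eq f (mul_nonneg hr.1 h0) (mul_le_one₀ hr.2 h0 h1)]

/-- **YMO**. -/
theorem ymo (ydr : YdrStmt) (rpo : RpoStmt) : YmoStmt := by
  intro n f g c1 c2 hn hf hpos hc1 hc2
  obtain ⟨M, hM⟩ := isCompact_Icc.exists_bound_of_continuousOn hf
  have hMf : ∀ t ∈ Icc (0 : ℝ) 1, 0 < f t ∧ f t ≤ M := fun t ht =>
    ⟨hpos t ht, (le_abs_self _).trans (hM t ht)⟩
  have hcont := continuous_ext01 hf
  have hbd : ∃ C, ∀ t, |ext01 f t| ≤ C := ⟨M, fun t => hM _ (ext01_mem t)⟩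
  -- the derivative of RA
  have hRA : ∀ c : ℝ, 0 < c → HasDerivAt (RA n (ext01 f))
      (((((n : ℝ) - 2) * RB n (ext01 f) c) * c - c * RA n (ext01 f) c * 1) / c ^ 2) c := by
    intro c hc
    have h1 := (ydr n (ext01 f) c hn hcont.measurable hbd hc).div (hasDerivAt_id c) hc.ne'
    refine h1.congr_of_eventuallyEq ?_
    filter_upwards [lt_mem_nhds hc] with u hu
    show RA n (ext01 f) u = u * RA n (ext01 f) u / u
    rw [mul_div_cancel_left₀ _ (ne_of_gt hu)]
  have hN : ∀ c : ℝ, 0 < c → HasDerivAt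
      (fun c => (1 + (g - 1) * c ^ 2) * RA n (ext01 f) c ^ 2)
      (2 * RA n (ext01 f) c / c *
        ((1 + (g - 1) * c ^ 2) * (((n : ℝ) - 2) * RB n (ext01 f) c) - RA n (ext01 f) c)) c := by
    intro c hc
    have h1 : HasDerivAt (fun c : ℝ => 1 + (g - 1) * c ^ 2) ((g - 1) * (2 * c)) c := by
      have h2 := ((hasDerivAt_pow 2 c).const_mul (g - 1)).const_add 1
      simpa using h2
    have h3 := h1.mul ((hRA c hc).pow 2)
    refine h3.congr_deriv ?_
    simp only [Nat.cast_ofNat, Nat.add_one_sub_one, pow_one, Pi.pow_apply]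
    have hc' : c ≠ 0 := hc.ne'
    field_simp
    ring
  have hcongr : ∀ c ∈ Icc c1 c2, (1 + (g - 1) * c ^ 2) * RA n (ext01 f) c ^ 2 =
      (1 + (g - 1) * c ^ 2) * RA n f c ^ 2 := by
    intro c hc
    rw [RA_ext01 n f (hc1.le.trans hc.1) (hc.2.trans hc2)]
  have hcontN : ContinuousOn (fun c => (1 + (g - 1) * c ^ 2) * RA n (ext01 f) c ^ 2)
      (Icc c1 c2) := fun c hc => (hN c (hc1.trans_le hc.1)).continuousAt.continuousWithinAt
  have hdiffN : DifferentiableOn ℝ (fun c => (1 + (g - 1) * c ^ 2) * RA n (ext01 f) c ^ 2)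
      (interior (Icc c1 c2)) := fun c hc =>
    (hN c (hc1.trans_le (interior_subset hc).1)).differentiableAt.differentiableWithinAt
  have hfac : ∀ c ∈ Icc c1 c2, 0 ≤ 2 * RA n (ext01 f) c / c := by
    intro c hc
    have h0 : 0 < c := hc1.trans_le hc.1
    have h1 : c ≤ 1 := hc.2.trans hc2
    rw [RA_ext01 n f h0.le h1]
    have h2 := (rpo n f M hn hf hMf c ⟨h0.le, h1⟩).1
    positivity
  refine ⟨fun h => ?_, fun h => ?_⟩
  · have h1 : MonotoneOn (fun c => (1 + (g - 1) * c ^ 2) * RA n (ext01 f) c ^ 2)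
        (Icc c1 c2) := by
      refine monotoneOn_of_deriv_nonneg (convex_Icc c1 c2) hcontN hdiffN fun c hc => ?_
      have hc' := interior_subset hc
      have h0 : 0 < c := hc1.trans_le hc'.1
      rw [(hN c h0).deriv]
      refine mul_nonneg (hfac c hc') ?_
      rw [RA_ext01 n f h0.le (hc'.2.trans hc2), RB_ext01 n f h0.le (hc'.2.trans hc2)]
      exact sub_nonneg.2 (h c hc')
    exact h1.congr hcongr
  · have h1 : AntitoneOn (fun c => (1 + (g - 1) * c ^ 2) * RA n (ext01 f) c ^ 2)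
        (Icc c1 c2) := by
      refine antitoneOn_of_deriv_nonpos (convex_Icc c1 c2) hcontN hdiffN fun c hc => ?_
      have hc' := interior_subset hc
      have h0 : 0 < c := hc1.trans_le hc'.1
      rw [(hN c h0).deriv]
      refine mul_nonpos_of_nonneg_of_nonpos (hfac c hc') ?_
      rw [RA_ext01 n f h0.le (hc'.2.trans hc2), RB_ext01 n f h0.le (hc'.2.trans hc2)]
      exact sub_nonpos.2 (h c hc')
    exact h1.congr hcongr

end Pool.Agent.REV.H47
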